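import Mathlib
import Pool.Agent.W245.PB.RealQ

/-!
# Logarithms of primes: block sums without polynomial relations of prescribed degrees

Let `N` and `D_0, D_1, …` be arbitrary integers.  There are bounds `0 = R_0 < R_1 < ⋯`, depending
only on these data, with the following property.  Let `p_0, p_1, …` be distinct primes and `W` a
space of complex numbers of dimension at most `N` over the field of algebraic numbers.  Then there
are sets `S_i` of integers in `[R_i, R_{i+1})` such that the sums `y_i = ∑_{j ∈ S_i} log p_j` of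
logarithms of primes satisfy no nontrivial polynomial relation `Q(y_0, …, y_{k-1}) = 0` of degree at
most `D_i` in the `i`-th variable, `i < k`, with all coefficients in `W`.
-/

namespace Pool.Agent.Results.MP_d171e3_nt.BlockSums

open Module

/-- **Main result.** -/
theorem result (N : ℕ) (D : ℕ → ℕ) : ∃ R : ℕ → ℕ, StrictMono R ∧ R 0 = 0 ∧
    ∀ p : ℕ → ℕ, (∀ i, (p i).Prime) → Function.Injective p →
    ∀ W : Submodule (algebraicClosure ℚ ℂ) ℂ, Module.Finite (algebraicClosure ℚ ℂ) W →
    finrank (algebraicClosure ℚ ℂ) W ≤ N →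
    ∃ S : ℕ → Finset ℕ, (∀ i, S i ⊆ Finset.Ico (R i) (R (i + 1))) ∧
      ∀ (k : ℕ) (Q : MvPolynomial (Fin k) ℂ), (∀ i, Q.degreeOf i ≤ D i) →
        (∀ s, Q.coeff s ∈ W) →
        MvPolynomial.eval (fun i : Fin k => ∑ j ∈ S i, (Real.log (p j) : ℂ)) Q = 0 → Q = 0 := by
  obtain ⟨R, hR, hR0, h⟩ := Pool.Agent.W245.PB.block_noRel N D
  refine ⟨R, hR, hR0, fun p hp hinj W hWf hWN => ?_⟩
  have hli : LinearIndependent ℚ (fun i => (Real.log (p i) : ℂ)) := by
    rw [linearIndependent_iff_finset_linearIndependent]
    intro s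
    exact Pool.Agent.H297R2.linearIndependent_log_prime (fun i : s => p i) (fun i => hp i)
      (fun i j hij => Subtype.ext (hinj hij))
  have halg : ∀ i, IsAlgebraic ℚ (Complex.exp (Real.log (p i) : ℂ)) := by
    intro i
    rw [← Complex.ofReal_exp, Real.exp_log (by exact_mod_cast (hp i).pos)]
    rw [Complex.ofReal_natCast]
    exact isAlgebraic_natCast _
  exact h (algebraicClosure ℚ ℂ) ℂ (fun i => (Real.log (p i) : ℂ))
    (Pool.Agent.W245.PB.baker_seq _ halg hli) W hWf hWN

end Pool.Agent.Results.MP_d171e3_nt.BlockSums
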